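import Pool.Agent.Helper81.XP.StC

set_option autoImplicit false

namespace Pool.Agent.Helper42.XP

open Finset Pool.Agent.Helper81.XP

theorem BDC_eig {K : Type} [Field K] [IsAlgClosed K] (A : SL K) (m : ℕ) (hA : A ^ m = 1) :
    ∃ z : K, z ^ m = 1 ∧ tr A = z + z⁻¹ := by
  obtain ⟨z, hz⟩ := IsAlgClosed.exists_root
    (Polynomial.X ^ 2 - Polynomial.C (tr A) * Polynomial.X + 1 : Polynomial K) (by
      have h1 : (Polynomial.X ^ 2 - Polynomial.C (tr A) * Polynomial.X + 1 : Polynomial K)
          = Polynomial.C 1 * Polynomial.X ^ 2 + Polynomial.C (-(tr A)) * Polynomial.X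
            + Polynomial.C 1 := by
        simp only [map_one, map_neg, one_mul]; ring
      rw [h1, Polynomial.degree_quadratic one_ne_zero]
      exact two_ne_zero)
  have hz1 : z ^ 2 - tr A * z + 1 = 0 := by
    simpa [Polynomial.IsRoot] using hz
  have hz0 : z ≠ 0 := by
    rintro rfl
    simp at hz1
  have hdet : ((A : Matrix (Fin 2) (Fin 2) K) - z • (1 : Matrix (Fin 2) (Fin 2) K)).det = 0 := by
    have h1 := A.2
    rw [Matrix.det_fin_two] at h1 ⊢
    have h2 : tr A = A.1 0 0 + A.1 1 1 := Matrix.trace_fin_two _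
    rw [h2] at hz1
    simp only [Matrix.sub_apply, Matrix.smul_apply, Matrix.one_apply, smul_eq_mul, if_true,
      mul_one, mul_zero, sub_zero, Fin.isValue, one_ne_zero, zero_ne_one, if_false]
    linear_combination hz1 + h1
  obtain ⟨v, hv0, hv⟩ := Matrix.exists_mulVec_eq_zero_iff.2 hdet
  have hv1 : (A : Matrix (Fin 2) (Fin 2) K).mulVec v = z • v := by
    rw [Matrix.sub_mulVec, Matrix.smul_mulVec, Matrix.one_mulVec, sub_eq_zero] at hv
    exact hv
  have hp : ∀ k : ℕ, ((A : Matrix (Fin 2) (Fin 2) K) ^ k).mulVec v = z ^ k • v := by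
    intro k
    induction k with
    | zero => simp
    | succ k ih =>
      rw [pow_succ, ← Matrix.mulVec_mulVec, hv1, Matrix.mulVec_smul, ih, smul_smul, pow_succ]
      congr 1
      ring
  have h3 := hp m
  have h4 : ((A : Matrix (Fin 2) (Fin 2) K) ^ m) = 1 := by
    have := congrArg Subtype.val hA
    simpa using this
  rw [h4, Matrix.one_mulVec] at h3
  obtain ⟨i, hi⟩ := Function.ne_iff.1 hv0
  have h5 := congrFun h3 i
  simp only [Pi.smul_apply, smul_eq_mul] at h5
  refine ⟨z, ?_, ?_⟩
  · have h6 : (z ^ m - 1) * v i = 0 := by linear_combination -h5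
    rcases mul_eq_zero.1 h6 with h | h
    · exact sub_eq_zero.1 h
    · exact absurd h hi
  · field_simp
    linear_combination -hz1

open Classical in
theorem st_BDC : ST_BDC := by
  intro p _
  set K := AlgebraicClosure (ZMod p) with hK
  set R : Finset K := (Icc 1 120).biUnion
    (fun m => (Polynomial.X ^ m - 1 : Polynomial K).roots.toFinset) with hR
  have hRc : R.card ≤ 7260 := by
    refine card_biUnion_le.trans ?_
    calc ∑ m ∈ Icc 1 120, ((Polynomial.X ^ m - 1 : Polynomial K).roots.toFinset).card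
        ≤ ∑ m ∈ Icc 1 120, m := by
          refine Finset.sum_le_sum fun m hm => ?_
          refine (Multiset.toFinset_card_le _).trans ((Polynomial.card_roots' _).trans ?_)
          have : (Polynomial.X ^ m - 1 : Polynomial K) = Polynomial.X ^ m - Polynomial.C 1 := by
            simp
          rw [this, Polynomial.natDegree_X_pow_sub_C]
      _ = 7260 := by decide +kernel
  set Z : Finset K := R.image (fun z => z + z⁻¹) ∪ {2, -2} with hZ
  have hZc : Z.card ≤ 7262 := by
    refine (card_union_le _ _).trans ?_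
    have h1 : (R.image (fun z => z + z⁻¹)).card ≤ R.card := card_image_le
    have h2 : ({2, -2} : Finset K).card ≤ 2 := card_le_two
    omega
  have hinj : Function.Injective (algebraMap (ZMod p) K) := (algebraMap (ZMod p) K).injective
  refine ⟨univ.filter (fun x => algebraMap (ZMod p) K x ∈ Z), ?_, ?_⟩
  · have h1 : (univ.filter (fun x => algebraMap (ZMod p) K x ∈ Z)).card ≤ Z.card := by
      refine card_le_card_of_injOn (algebraMap (ZMod p) K) ?_ (hinj.injOn)
      intro x hx
      exact (mem_filter.1 hx).2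
    omega
  · intro g hg
    refine mem_filter.2 ⟨mem_univ _, ?_⟩
    unfold Hyp at hg
    by_cases h1 : tr g = 2
    · rw [h1, hZ, map_ofNat]
      exact mem_union_right _ (mem_insert_self _ _)
    by_cases h2 : tr g = -2
    · rw [h2, hZ, map_neg, map_ofNat]
      exact mem_union_right _ (mem_insert_of_mem (mem_singleton_self _))
    have h3 : ∃ m : ℕ, 1 ≤ m ∧ m ≤ 120 ∧ g ^ m = 1 := by
      by_contra hc
      push Not at hc
      exact hg ⟨h1, h2, fun m hm hm' => hc m hm hm'⟩
    obtain ⟨m, hm1, hm2, hm⟩ := h3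
    obtain ⟨z, hz1, hz2⟩ := BDC_eig (io p g) m (by rw [← map_pow, hm, map_one])
    have h4 : tr (io p g) = algebraMap (ZMod p) K (tr g) := by
      unfold tr io
      rw [Matrix.trace_fin_two, Matrix.trace_fin_two, map_add]
      rfl
    rw [← h4, hz2, hZ]
    refine mem_union_left _ (mem_image_of_mem _ ?_)
    rw [hR, mem_biUnion]
    refine ⟨m, mem_Icc.2 ⟨hm1, hm2⟩, ?_⟩
    rw [Multiset.mem_toFinset, Polynomial.mem_roots]
    · simp [Polynomial.IsRoot, hz1]
    · have : (Polynomial.X ^ m - 1 : Polynomial K) = Polynomial.X ^ m - Polynomial.C 1 := by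
        simp
      rw [this]
      exact Polynomial.X_pow_sub_C_ne_zero (by omega) 1

end Pool.Agent.Helper42.XP
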