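import Pool.Agent.Helper81.XP.StA

set_option autoImplicit false

namespace Pool.Agent.Helper42.XP

open Finset Pool.Agent.Helper81.XP

theorem CRD_ker (p : ℕ) [Fact p.Prime] :
    Nat.card (SL (ZMod p))
      = Nat.card (Matrix.GeneralLinearGroup.det (n := Fin 2) (R := ZMod p)).ker := by
  have hm : ∀ g : SL (ZMod p), Matrix.SpecialLinearGroup.toGL g ∈
      (Matrix.GeneralLinearGroup.det (n := Fin 2) (R := ZMod p)).ker := by
    intro g
    rw [MonoidHom.mem_ker]
    apply Units.ext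
    simp
  refine Nat.card_congr (Equiv.ofBijective
    (fun g : SL (ZMod p) => (⟨Matrix.SpecialLinearGroup.toGL g, hm g⟩ :
      (Matrix.GeneralLinearGroup.det (n := Fin 2) (R := ZMod p)).ker)) ⟨?_, ?_⟩)
  · intro g h hgh
    exact Matrix.SpecialLinearGroup.toGL_injective (congrArg Subtype.val hgh)
  · rintro ⟨g, hg⟩
    rw [MonoidHom.mem_ker] at hg
    have hd : (g : Matrix (Fin 2) (Fin 2) (ZMod p)).det = 1 := by
      have := congrArg Units.val hg
      simpa using this
    refine ⟨⟨g, hd⟩, ?_⟩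
    apply Subtype.ext
    apply Units.ext
    rfl

theorem st_CRD : ST_CRD := by
  intro p hp
  have : Fact p.Prime := ⟨hp⟩
  rw [CRD_ker]
  have h1 := Subgroup.card_eq_card_quotient_mul_card_subgroup
    (Matrix.GeneralLinearGroup.det (n := Fin 2) (R := ZMod p)).ker
  have hs : Function.Surjective (Matrix.GeneralLinearGroup.det (n := Fin 2) (R := ZMod p)) := by
    intro u
    refine ⟨Matrix.GeneralLinearGroup.mkOfDetNeZero !![(u : ZMod p), 0; 0, 1]
      (by simp), ?_⟩
    apply Units.ext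
    simp [Matrix.GeneralLinearGroup.mkOfDetNeZero]
  have h2 : Nat.card (Matrix.GeneralLinearGroup (Fin 2) (ZMod p) ⧸
      (Matrix.GeneralLinearGroup.det (n := Fin 2) (R := ZMod p)).ker) = p - 1 := by
    rw [Nat.card_congr (QuotientGroup.quotientKerEquivOfSurjective _ hs).toEquiv,
      Nat.card_eq_fintype_card, ZMod.card_units]
  have h3 := Matrix.card_GL_field (𝔽 := ZMod p) 2
  simp only [ZMod.card, Fin.prod_univ_two, Fin.val_zero, Fin.val_one, pow_zero, pow_one] at h3
  rw [h1, h2] at h3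
  set c := Nat.card (Matrix.GeneralLinearGroup.det (n := Fin 2) (R := ZMod p)).ker
  have hp2 := hp.two_le
  obtain ⟨q, rfl⟩ : ∃ q, p = q + 2 := ⟨p - 2, by omega⟩
  have e1 : q + 2 - 1 = q + 1 := by omega
  have e2 : (q + 2) ^ 2 - 1 = (q + 1) * (q + 3) := by
    have : (q + 2) ^ 2 = (q + 1) * (q + 3) + 1 := by ring
    omega
  have e3 : (q + 2) ^ 2 - (q + 2) = (q + 2) * (q + 1) := by
    have : (q + 2) ^ 2 = (q + 2) * (q + 1) + (q + 2) := by ring
    omega
  have e4 : (q + 2) ^ 3 - (q + 2) = (q + 2) * ((q + 1) * (q + 3)) := by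
    have : (q + 2) ^ 3 = (q + 2) * ((q + 1) * (q + 3)) + (q + 2) := by ring
    omega
  rw [e1, e2, e3] at h3
  rw [e4]
  have h4 : (q + 1) * c = (q + 1) * ((q + 2) * ((q + 1) * (q + 3))) := by
    rw [h3]; ring
  exact Nat.eq_of_mul_eq_mul_left (by omega) h4

end Pool.Agent.Helper42.XP
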