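import Pool.Agent.Helper81.XP.StC
import Pool.Agent.Helper81.XP.Pj

set_option autoImplicit false

namespace Pool.Agent.Helper42.XP

open Finset Pool.Agent.Helper81.XP

theorem CTP_tr {p : ℕ} [Fact p.Prime] (g : SL (ZMod p)) :
    tr (io p g) = algebraMap (ZMod p) (AlgebraicClosure (ZMod p)) (tr g) := by
  unfold tr io
  rw [Matrix.trace_fin_two, Matrix.trace_fin_two, map_add]
  rfl

theorem CTP_ct (hCFP : ST_CFP) (hNIV : ST_NIV) {p : ℕ} [Fact p.Prime] (hp : 5 ≤ p)
    (a b : SL (ZMod p)) (h : Subgroup.closure ({a, b} : Set (SL (ZMod p))) = ⊤) :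
    tr (ct a b) ≠ 2 := by
  classical
  intro h2
  have h3 : tr (ct (io p a) (io p b)) = 2 := by
    have e : ct (io p a) (io p b) = io p (ct a b) := by
      simp only [ct, map_mul, map_inv]
    rw [e, CTP_tr, h2, map_ofNat]
  obtain ⟨ξ, hξa, hξb⟩ := (hCFP _ (io p a) (io p b)).1 h3
  have h4 := hNIV p hp {a, b} (by simpa using h) {ξ} (singleton_nonempty _) (by simp)
  obtain ⟨g, hg, y, hy, hgy⟩ := h4
  rw [mem_singleton] at hy
  subst hy
  rw [mem_singleton] at hgy
  simp only [mem_image, mem_insert, mem_singleton] at hg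
  obtain ⟨c, rfl | rfl, rfl⟩ := hg
  · exact hgy hξa
  · exact hgy hξb

theorem CTP_im {α β : Type} (inst : DecidableEq β) (X : Finset α) (f : α → β) (T : Finset β)
    (h : ∀ x ∈ X, f x ∈ T) : (@Finset.image α β inst f X).card ≤ T.card :=
  card_le_card (image_subset_iff.2 h)

theorem CTP_X (hTRC : ST_TRC) {p : ℕ} [Fact p.Prime] (h1 h2 : SL (ZMod p))
    (h : tr (ct h1 h2) ≠ 2) (X : Finset (SL (ZMod p))) (T1 T2 T3 : Finset (ZMod p))
    (hX : ∀ x ∈ X, tr x ∈ T1 ∧ tr (x * h1) ∈ T2 ∧ tr (x * h2) ∈ T3) :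
    X.card ≤ 2 * T1.card * T2.card * T3.card := by
  classical
  refine (hTRC (ZMod p) h1 h2 h X).trans ?_
  exact Nat.mul_le_mul (Nat.mul_le_mul (Nat.mul_le_mul_left 2
    (CTP_im _ X _ T1 fun x hx => (hX x hx).1))
    (CTP_im _ X _ T2 fun x hx => (hX x hx).2.1))
    (CTP_im _ X _ T3 fun x hx => (hX x hx).2.2)

/-- two unipotent matrices -/
def CTP_U (p : ℕ) : SL (ZMod p) := ⟨!![1, 1; 0, 1], by simp [Matrix.det_fin_two]⟩

def CTP_L (p : ℕ) : SL (ZMod p) := ⟨!![1, 0; 1, 1], by simp [Matrix.det_fin_two]⟩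

theorem CTP_UL {p : ℕ} [Fact p.Prime] : tr (ct (CTP_U p) (CTP_L p)) ≠ 2 := by
  have h : tr (ct (CTP_U p) (CTP_L p)) = 3 := by
    unfold tr ct
    rw [Matrix.SpecialLinearGroup.coe_mul, Matrix.SpecialLinearGroup.coe_mul,
      Matrix.SpecialLinearGroup.coe_mul, Matrix.SpecialLinearGroup.coe_inv,
      Matrix.SpecialLinearGroup.coe_inv]
    simp only [CTP_U, CTP_L, Matrix.adjugate_fin_two_of, Matrix.trace_fin_two, Matrix.mul_apply,
      Fin.sum_univ_two, Matrix.of_apply, Matrix.cons_val_zero, Matrix.cons_val_one,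
      Matrix.cons_val', Matrix.cons_val_fin_one]
    norm_num
  rw [h]
  intro h2
  have h1 : (1 : ZMod p) = 0 := by linear_combination h2
  exact one_ne_zero h1

open Classical in
theorem CTP_pairs (hTRC : ST_TRC) (hCFP : ST_CFP) (hNIV : ST_NIV) {p : ℕ} [Fact p.Prime]
    (hp : 5 ≤ p) [Fintype (SL (ZMod p))] (T : Finset (ZMod p × ZMod p × ZMod p)) :
    ((univ : Finset (SL (ZMod p) × SL (ZMod p))).filter (fun q =>
      Subgroup.closure ({q.1, q.2} : Set (SL (ZMod p))) = ⊤ ∧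
        (tr q.1, tr q.2, tr (q.1 * q.2)) ∈ T)).card ≤ 4 * p ^ 3 * T.card := by
  set P := (univ : Finset (SL (ZMod p) × SL (ZMod p))).filter (fun q =>
      Subgroup.closure ({q.1, q.2} : Set (SL (ZMod p))) = ⊤ ∧
        (tr q.1, tr q.2, tr (q.1 * q.2)) ∈ T) with hP
  have hu : (univ : Finset (ZMod p)).card = p := by
    rw [card_univ, ZMod.card]
  have h1 : P.card ≤ (4 * p ^ 3) * T.card := by
    refine card_le_mul_card_image_of_maps_to (f := fun q => (tr q.1, tr q.2, tr (q.1 * q.2)))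
      (fun q hq => (mem_filter.1 hq).2.2) (4 * p ^ 3) ?_
    rintro ⟨x, y, z⟩ -
    set Q := P.filter (fun q => (tr q.1, tr q.2, tr (q.1 * q.2)) = (x, y, z)) with hQ
    have hQm : ∀ q ∈ Q, Subgroup.closure ({q.1, q.2} : Set (SL (ZMod p))) = ⊤ ∧
        tr q.1 = x ∧ tr q.2 = y ∧ tr (q.1 * q.2) = z := by
      intro q hq
      obtain ⟨h1, h2⟩ := mem_filter.1 hq
      simp only [Prod.mk.injEq] at h2
      exact ⟨(mem_filter.1 h1).2.1, h2⟩
    have h2 : Q.card ≤ (2 * p) * (Q.image Prod.fst).card := by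
      refine card_le_mul_card_image Q (2 * p) fun a _ => ?_
      rcases (Q.filter (fun q => q.1 = a)).eq_empty_or_nonempty with h0 | ⟨q0, h0⟩
      · rw [h0]; simp
      · obtain ⟨h0Q, h0a⟩ := mem_filter.1 h0
        have h3 : (Q.filter (fun q => q.1 = a)).card
            = ((Q.filter (fun q => q.1 = a)).image Prod.snd).card := by
          refine (card_image_of_injOn ?_).symm
          intro q hq q' hq' hqq
          exact Prod.ext ((mem_filter.1 hq).2.trans (mem_filter.1 hq').2.symm) hqq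
        rw [h3]
        have h4 : tr (ct a q0.2) ≠ 2 := by
          rw [← h0a]; exact CTP_ct hCFP hNIV hp _ _ (hQm q0 h0Q).1
        refine (CTP_X hTRC a q0.2 h4 _ {y} {z} univ ?_).trans ?_
        · intro b hb
          obtain ⟨q, hq, rfl⟩ := mem_image.1 hb
          obtain ⟨hqQ, hqa⟩ := mem_filter.1 hq
          obtain ⟨-, -, e2, e3⟩ := hQm q hqQ
          refine ⟨mem_singleton.2 e2, mem_singleton.2 ?_, mem_univ _⟩
          rw [← hqa, tr_mul_comm]
          exact e3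
        · rw [card_singleton, card_singleton, hu]
    have h3 : (Q.image Prod.fst).card ≤ 2 * p ^ 2 := by
      refine (CTP_X hTRC (CTP_U p) (CTP_L p) CTP_UL _ {x} univ univ ?_).trans ?_
      · intro a ha
        obtain ⟨q, hq, rfl⟩ := mem_image.1 ha
        exact ⟨mem_singleton.2 (hQm q hq).2.1, mem_univ _, mem_univ _⟩
      · rw [card_singleton, hu]
        apply le_of_eq
        ring
    calc Q.card ≤ (2 * p) * (Q.image Prod.fst).card := h2
      _ ≤ (2 * p) * (2 * p ^ 2) := Nat.mul_le_mul_left _ h3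
      _ = 4 * p ^ 3 := by ring
  exact h1

open Classical in
theorem st_CTP (hTRC : ST_TRC) (hCFP : ST_CFP) (hNIV : ST_NIV) : ST_CTP := by
  intro p _ hp r T T' F hF
  have : Fintype (SL (ZMod p)) := Fintype.ofFinite _
  set P := (univ : Finset (SL (ZMod p) × SL (ZMod p))).filter (fun q =>
      Subgroup.closure ({q.1, q.2} : Set (SL (ZMod p))) = ⊤ ∧
        (tr q.1, tr q.2, tr (q.1 * q.2)) ∈ T) with hP
  have hPc := CTP_pairs hTRC hCFP hNIV hp T
  rw [← hP] at hPc
  set X : SL (ZMod p) × SL (ZMod p) → Finset (SL (ZMod p)) := fun q =>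
    univ.filter (fun x => tr x ∈ T' ∧ tr (x * q.1) ∈ T' ∧ tr (x * q.2) ∈ T') with hX
  have h1 : F ⊆ P.biUnion (fun q => Fintype.piFinset (fun _ : Fin r => X q)) := by
    intro s hs
    obtain ⟨a, b, h2, h3, h4⟩ := hF s hs
    rw [mem_biUnion]
    refine ⟨(a, b), mem_filter.2 ⟨mem_univ _, h2, h3⟩, ?_⟩
    rw [Fintype.mem_piFinset]
    intro i
    exact mem_filter.2 ⟨mem_univ _, h4 i⟩
  refine (card_le_card h1).trans ?_
  refine (card_biUnion_le_card_mul P _ ((2 * T'.card ^ 3) ^ r) ?_).trans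
    (Nat.mul_le_mul_right _ hPc)
  intro q hq
  rw [Fintype.card_piFinset_const]
  refine Nat.pow_le_pow_left ?_ r
  have h2 : tr (ct q.1 q.2) ≠ 2 := CTP_ct hCFP hNIV hp _ _ (mem_filter.1 hq).2.1
  refine (CTP_X hTRC q.1 q.2 h2 (X q) T' T' T' fun x hx => (mem_filter.1 hx).2).trans ?_
  apply le_of_eq
  ring

end Pool.Agent.Helper42.XP
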