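import Pool.Agent.Helper81.XP.StB

set_option autoImplicit false

namespace Pool.Agent.Helper42.XP

open Finset Pool.Agent.Helper81.XP

theorem st_SEP : ST_SEP := by
  intro F _ L _ _ p hp hF a ha hd
  have hi := minpoly.irreducible ha
  have hm := minpoly.monic ha
  refine (Polynomial.separable_iff_derivative_ne_zero hi).2 fun h0 => ?_
  have hn : 0 < (minpoly F a).natDegree := minpoly.natDegree_pos ha
  have h1 := congrArg (fun q => q.coeff ((minpoly F a).natDegree - 1)) h0
  simp only [Polynomial.coeff_derivative, Polynomial.coeff_zero] at h1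
  have e : (minpoly F a).natDegree - 1 + 1 = (minpoly F a).natDegree := by omega
  rw [e, Polynomial.Monic.coeff_natDegree hm, one_mul] at h1
  have h2 : (((minpoly F a).natDegree : ℕ) : F) = 0 := by
    rw [← h1]
    have : (minpoly F a).natDegree = ((minpoly F a).natDegree - 1) + 1 := by omega
    nth_rewrite 1 [this]
    push_cast
    rfl
  rw [CharP.cast_eq_zero_iff F p] at h2
  exact absurd (Nat.le_of_dvd hn h2) (by omega)

end Pool.Agent.Helper42.XP
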