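import Pool.Agent.Helper81.XP.StA

set_option autoImplicit false

namespace Pool.Agent.Helper42.XP

open Finset Pool.Agent.Helper81.XP
open scoped Pointwise

section TOR

variable {K : Type} [Field K]

open Classical in
theorem TOR_sq2 (S : Finset K) (c : K) (h : ∀ s ∈ S, s ^ 2 = c) : S.card ≤ 2 := by
  rcases S.eq_empty_or_nonempty with h0 | ⟨s0, h0⟩
  · subst h0; simp
  · have h1 : S ⊆ {s0, -s0} := by
      intro s hs
      have h2 : s ^ 2 = s0 ^ 2 := by rw [h s hs, h s0 h0]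
      rcases sq_eq_sq_iff_eq_or_eq_neg.1 h2 with h3 | h3 <;> simp [h3]
    exact (card_le_card h1).trans card_le_two

open Classical in
theorem TOR_quad (S : Finset K) (α β γ : K) (hα : α ≠ 0)
    (h : ∀ y ∈ S, α * y ^ 2 + β * y + γ = 0) : S.card ≤ 2 := by
  rcases S.eq_empty_or_nonempty with h0 | ⟨s0, h0⟩
  · subst h0; simp
  · have h1 : S ⊆ {s0, -β / α - s0} := by
      intro s hs
      have h2 := h s hs
      have h3 := h s0 h0
      have h4 : (s - s0) * (α * (s + s0) + β) = 0 := by linear_combination h2 - h3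
      rcases mul_eq_zero.1 h4 with h5 | h5
      · have : s = s0 := by linear_combination h5
        simp [this]
      · have : s = -β / α - s0 := by field_simp; linear_combination h5
        simp [this]
    exact (card_le_card h1).trans card_le_two

open Classical in
theorem TOR_quad4 (S : Finset K) (α β γ : K) (hα : α ≠ 0)
    (h : ∀ x ∈ S, α * (x ^ 2) ^ 2 + β * x ^ 2 + γ = 0) : S.card ≤ 4 := by
  have h1 : S.card ≤ 2 * (S.image (fun x => x ^ 2)).card :=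
    card_le_mul_card_image S 2 fun b _ => TOR_sq2 _ b fun s hs => (mem_filter.1 hs).2
  have h2 : (S.image (fun x => x ^ 2)).card ≤ 2 := by
    refine TOR_quad _ α β γ hα fun y hy => ?_
    obtain ⟨x, hx, rfl⟩ := mem_image.1 hy
    exact h x hx
  omega

theorem TOR_det (d : SL K) (h01 : d.1 0 1 = 0) : d.1 0 0 * d.1 1 1 = 1 := by
  have h := d.2
  rw [Matrix.det_fin_two, h01, zero_mul, sub_zero] at h
  exact h

theorem TOR_ext (d d' : SL K) (h01 : d.1 0 1 = 0) (h10 : d.1 1 0 = 0) (h01' : d'.1 0 1 = 0)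
    (h10' : d'.1 1 0 = 0) (h : d.1 0 0 = d'.1 0 0) : d = d' := by
  have h1 := TOR_det d h01
  have h2 := TOR_det d' h01'
  have h0 : d'.1 0 0 ≠ 0 := left_ne_zero_of_mul_eq_one h2
  have h3 : d.1 1 1 = d'.1 1 1 := by
    rw [h] at h1
    exact mul_left_cancel₀ h0 (h1.trans h2.symm)
  apply Subtype.ext
  ext i j
  fin_cases i <;> fin_cases j <;> simp_all

/-- the middle product -/
def TOR_m (g x : SL K) : SL K := g * x * g

theorem TOR_m_apply (g x : SL K) (h01 : x.1 0 1 = 0) (h10 : x.1 1 0 = 0) :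
    (TOR_m g x).1 0 0 = g.1 0 0 * x.1 0 0 * g.1 0 0 + g.1 0 1 * x.1 1 1 * g.1 1 0 ∧
    (TOR_m g x).1 0 1 = g.1 0 0 * x.1 0 0 * g.1 0 1 + g.1 0 1 * x.1 1 1 * g.1 1 1 ∧
    (TOR_m g x).1 1 1 = g.1 1 0 * x.1 0 0 * g.1 0 1 + g.1 1 1 * x.1 1 1 * g.1 1 1 := by
  have h : (TOR_m g x).1 = g.1 * x.1 * g.1 := rfl
  rw [h]
  refine ⟨?_, ?_, ?_⟩ <;>
    simp only [Matrix.mul_apply, Fin.sum_univ_two, h01, h10] <;> ring

theorem TOR_F (d1 d3 M : SL K) (h01 : d1.1 0 1 = 0) (h10 : d1.1 1 0 = 0) (h01' : d3.1 0 1 = 0)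
    (h10' : d3.1 1 0 = 0) :
    (d1 * M * d3).1 0 0 = d1.1 0 0 * M.1 0 0 * d3.1 0 0 ∧
    (d1 * M * d3).1 0 1 = d1.1 0 0 * M.1 0 1 * d3.1 1 1 ∧
    (d1 * M * d3).1 1 1 = d1.1 1 1 * M.1 1 1 * d3.1 1 1 := by
  have h : (d1 * M * d3).1 = d1.1 * M.1 * d3.1 := rfl
  rw [h]
  refine ⟨?_, ?_, ?_⟩ <;>
    simp only [Matrix.mul_apply, Fin.sum_univ_two, h01, h10, h01', h10'] <;> ring

open Classical in
theorem st_TOR : ST_TOR := by
  intro K _ D g hD hg
  have h01 : ∀ d ∈ D, d.1 0 1 = 0 := fun d hd => (hD d hd).1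
  have h10 : ∀ d ∈ D, d.1 1 0 = 0 := fun d hd => (hD d hd).2
  have hdet : ∀ d ∈ D, d.1 0 0 * d.1 1 1 = 1 := fun d hd => TOR_det d (h01 d hd)
  have hn0 : ∀ d ∈ D, d.1 0 0 ≠ 0 := fun d hd => left_ne_zero_of_mul_eq_one (hdet d hd)
  have hinj : ∀ d ∈ D, ∀ d' ∈ D, d.1 0 0 = d'.1 0 0 → d = d' := fun d hd d' hd' h =>
    TOR_ext d d' (h01 d hd) (h10 d hd) (h01 d' hd') (h10 d' hd') h
  have ha : g.1 0 0 ≠ 0 := hg 0 0
  have hb : g.1 0 1 ≠ 0 := hg 0 1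
  have hc : g.1 1 0 ≠ 0 := hg 1 0
  have hd : g.1 1 1 ≠ 0 := hg 1 1
  set D' := D.filter (fun x => (TOR_m g x).1 0 0 ≠ 0 ∧ (TOR_m g x).1 0 1 ≠ 0) with hD'
  -- the exceptional elements
  have hE1 : (D.filter (fun x => (TOR_m g x).1 0 0 = 0)).card ≤ 2 := by
    have h1 : (D.filter (fun x => (TOR_m g x).1 0 0 = 0)).card
        = ((D.filter (fun x => (TOR_m g x).1 0 0 = 0)).image (fun x => x.1 0 0)).card := by
      refine (card_image_of_injOn ?_).symm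
      intro x hx y hy hxy
      exact hinj x (mem_filter.1 hx).1 y (mem_filter.1 hy).1 hxy
    rw [h1]
    refine TOR_sq2 _ (-(g.1 0 1 * g.1 1 0) / g.1 0 0 ^ 2) fun s hs => ?_
    obtain ⟨x, hx, rfl⟩ := mem_image.1 hs
    obtain ⟨hx, hx0⟩ := mem_filter.1 hx
    rw [(TOR_m_apply g x (h01 x hx) (h10 x hx)).1] at hx0
    have h2 := hdet x hx
    rw [eq_div_iff (pow_ne_zero 2 ha)]
    linear_combination (x.1 0 0) * hx0 - g.1 0 1 * g.1 1 0 * h2
  have hE2 : (D.filter (fun x => (TOR_m g x).1 0 1 = 0)).card ≤ 2 := by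
    have h1 : (D.filter (fun x => (TOR_m g x).1 0 1 = 0)).card
        = ((D.filter (fun x => (TOR_m g x).1 0 1 = 0)).image (fun x => x.1 0 0)).card := by
      refine (card_image_of_injOn ?_).symm
      intro x hx y hy hxy
      exact hinj x (mem_filter.1 hx).1 y (mem_filter.1 hy).1 hxy
    rw [h1]
    refine TOR_sq2 _ (-(g.1 1 1) / g.1 0 0) fun s hs => ?_
    obtain ⟨x, hx, rfl⟩ := mem_image.1 hs
    obtain ⟨hx, hx0⟩ := mem_filter.1 hx
    rw [(TOR_m_apply g x (h01 x hx) (h10 x hx)).2.1] at hx0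
    have h2 := hdet x hx
    have h3 : g.1 0 1 * (g.1 0 0 * x.1 0 0 + x.1 1 1 * g.1 1 1) = 0 := by
      linear_combination hx0
    have h4 := (mul_eq_zero.1 h3).resolve_left hb
    rw [eq_div_iff ha]
    linear_combination (x.1 0 0) * h4 - g.1 1 1 * h2
  have hcard : D.card - 4 ≤ D'.card := by
    have h1 : D ⊆ D' ∪ (D.filter (fun x => (TOR_m g x).1 0 0 = 0) ∪
        D.filter (fun x => (TOR_m g x).1 0 1 = 0)) := by
      intro x hx
      simp only [mem_union, hD', mem_filter]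
      by_cases h1 : (TOR_m g x).1 0 0 = 0
      · exact Or.inr (Or.inl ⟨hx, h1⟩)
      · by_cases h2 : (TOR_m g x).1 0 1 = 0
        · exact Or.inr (Or.inr ⟨hx, h2⟩)
        · exact Or.inl ⟨hx, h1, h2⟩
    have h2 := card_le_card h1
    have h3 := card_union_le D' (D.filter (fun x => (TOR_m g x).1 0 0 = 0) ∪
        D.filter (fun x => (TOR_m g x).1 0 1 = 0))
    have h4 := card_union_le (D.filter (fun x => (TOR_m g x).1 0 0 = 0))
        (D.filter (fun x => (TOR_m g x).1 0 1 = 0))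
    omega
  -- the map
  set F : SL K × SL K × SL K → SL K := fun q => q.1 * TOR_m g q.2.1 * q.2.2 with hF
  have hmap : ∀ q ∈ D ×ˢ D' ×ˢ D, F q ∈ D * {g} * D * {g} * D := by
    rintro ⟨d1, x, d3⟩ hq
    simp only [mem_product] at hq
    obtain ⟨h1, h2, h3⟩ := hq
    have h2' := (mem_filter.1 h2).1
    have e : F (d1, x, d3) = d1 * g * x * g * d3 := by
      simp only [hF, TOR_m]; group
    rw [e]
    exact mul_mem_mul (mul_mem_mul (mul_mem_mul (mul_mem_mul h1 (mem_singleton_self g)) h2')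
      (mem_singleton_self g)) h3
  have hfib : ∀ N ∈ D * {g} * D * {g} * D, ((D ×ˢ D' ×ˢ D).filter (fun q => F q = N)).card ≤ 8 := by
    intro N _
    set Φ := (D ×ˢ D' ×ˢ D).filter (fun q => F q = N) with hΦ
    have hΦm : ∀ q ∈ Φ, q.1 ∈ D ∧ q.2.1 ∈ D ∧ q.2.2 ∈ D ∧ (TOR_m g q.2.1).1 0 0 ≠ 0 ∧
        (TOR_m g q.2.1).1 0 1 ≠ 0 ∧ F q = N := by
      intro q hq
      obtain ⟨h1, h2⟩ := mem_filter.1 hq
      simp only [mem_product] at h1
      obtain ⟨h3, h4, h5⟩ := h1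
      obtain ⟨h6, h7, h8⟩ := mem_filter.1 h4
      exact ⟨h3, h6, h5, h7, h8, h2⟩
    have hN : ∀ q ∈ Φ, N.1 0 0 = q.1.1 0 0 * (TOR_m g q.2.1).1 0 0 * q.2.2.1 0 0 ∧
        N.1 0 1 = q.1.1 0 0 * (TOR_m g q.2.1).1 0 1 * q.2.2.1 1 1 ∧
        N.1 1 1 = q.1.1 1 1 * (TOR_m g q.2.1).1 1 1 * q.2.2.1 1 1 := by
      intro q hq
      obtain ⟨h1, h2, h3, h4, h5, h6⟩ := hΦm q hq
      rw [← h6]
      exact TOR_F q.1 q.2.2 (TOR_m g q.2.1) (h01 _ h1) (h10 _ h1) (h01 _ h3) (h10 _ h3)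
    -- at most four values of the middle element
    have h4 : (Φ.image (fun q => q.2.1)).card ≤ 4 := by
      have h1 : (Φ.image (fun q => q.2.1)).card
          = ((Φ.image (fun q => q.2.1)).image (fun x => x.1 0 0)).card := by
        refine (card_image_of_injOn ?_).symm
        intro x hx y hy hxy
        obtain ⟨q, hq, rfl⟩ := mem_image.1 hx
        obtain ⟨q', hq', rfl⟩ := mem_image.1 hy
        exact hinj _ (hΦm q hq).2.1 _ (hΦm q' hq').2.1 hxy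
      rw [h1]
      refine TOR_quad4 _ (g.1 0 0 ^ 2 * g.1 0 1 * g.1 1 0)
        (g.1 0 0 ^ 2 * g.1 1 1 ^ 2 + g.1 0 1 ^ 2 * g.1 1 0 ^ 2 - N.1 0 0 * N.1 1 1)
        (g.1 0 1 * g.1 1 0 * g.1 1 1 ^ 2) (mul_ne_zero (mul_ne_zero (pow_ne_zero 2 ha) hb) hc) ?_
      intro s hs
      obtain ⟨x, hx, rfl⟩ := mem_image.1 hs
      obtain ⟨q, hq, rfl⟩ := mem_image.1 hx
      obtain ⟨e1, -, e3⟩ := hN q hq
      obtain ⟨h1, h2, h3, -, -, -⟩ := hΦm q hq
      obtain ⟨m1, -, m3⟩ := TOR_m_apply g q.2.1 (h01 _ h2) (h10 _ h2)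
      have k1 := hdet _ h1
      have k2 := hdet _ h2
      have k3 := hdet _ h3
      rw [m1] at e1
      rw [m3] at e3
      have hNN : N.1 0 0 * N.1 1 1
          = (g.1 0 0 * q.2.1.1 0 0 * g.1 0 0 + g.1 0 1 * q.2.1.1 1 1 * g.1 1 0) *
            (g.1 1 0 * q.2.1.1 0 0 * g.1 0 1 + g.1 1 1 * q.2.1.1 1 1 * g.1 1 1) := by
        rw [e1, e3]
        linear_combination
          ((g.1 0 0 * q.2.1.1 0 0 * g.1 0 0 + g.1 0 1 * q.2.1.1 1 1 * g.1 1 0) *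
            (g.1 1 0 * q.2.1.1 0 0 * g.1 0 1 + g.1 1 1 * q.2.1.1 1 1 * g.1 1 1) *
            (q.2.2.1 0 0 * q.2.2.1 1 1)) * k1 +
          ((g.1 0 0 * q.2.1.1 0 0 * g.1 0 0 + g.1 0 1 * q.2.1.1 1 1 * g.1 1 0) *
            (g.1 1 0 * q.2.1.1 0 0 * g.1 0 1 + g.1 1 1 * q.2.1.1 1 1 * g.1 1 1)) * k3
      show g.1 0 0 ^ 2 * g.1 0 1 * g.1 1 0 * (q.2.1.1 0 0 ^ 2) ^ 2 +
        (g.1 0 0 ^ 2 * g.1 1 1 ^ 2 + g.1 0 1 ^ 2 * g.1 1 0 ^ 2 - N.1 0 0 * N.1 1 1) *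
          q.2.1.1 0 0 ^ 2 + g.1 0 1 * g.1 1 0 * g.1 1 1 ^ 2 = 0
      rw [hNN]
      linear_combination (-((g.1 0 0 ^ 2 * g.1 1 1 ^ 2 + g.1 0 1 ^ 2 * g.1 1 0 ^ 2) *
        q.2.1.1 0 0 ^ 2 + g.1 0 1 * g.1 1 0 * g.1 1 1 ^ 2 *
          (1 + q.2.1.1 0 0 * q.2.1.1 1 1))) * k2
    -- at most two triples for every middle element
    have h2 : Φ.card ≤ 2 * (Φ.image (fun q => q.2.1)).card := by
      refine card_le_mul_card_image Φ 2 fun x _ => ?_
      have h1 : (Φ.filter (fun q => q.2.1 = x)).card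
          = ((Φ.filter (fun q => q.2.1 = x)).image (fun q => q.1.1 0 0)).card := by
        refine (card_image_of_injOn ?_).symm
        intro q hq q' hq' hqq
        obtain ⟨hq1, hq2⟩ := mem_filter.1 hq
        obtain ⟨hq1', hq2'⟩ := mem_filter.1 hq'
        obtain ⟨a1, a2, a3, a4, a5, a6⟩ := hΦm q hq1
        obtain ⟨b1, b2, b3, b4, b5, b6⟩ := hΦm q' hq1'
        have c1 := (hN q hq1).1
        have c2 := (hN q' hq1').1
        have hq3 : q.1 = q'.1 := hinj _ a1 _ b1 hqq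
        have hq4 : q.2.2 = q'.2.2 := by
          refine hinj _ a3 _ b3 ?_
          have h5 : q.1.1 0 0 * (TOR_m g q.2.1).1 0 0 * q.2.2.1 0 0
              = q.1.1 0 0 * (TOR_m g q.2.1).1 0 0 * q'.2.2.1 0 0 := by
            rw [← c1, c2, hq2, hq2', hq3]
          exact mul_left_cancel₀ (mul_ne_zero (hn0 _ a1) a4) h5
        exact Prod.ext hq3 (Prod.ext (hq2.trans hq2'.symm) hq4)
      rw [h1]
      refine TOR_sq2 _ (N.1 0 0 * N.1 0 1 / ((TOR_m g x).1 0 0 * (TOR_m g x).1 0 1)) ?_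
      intro s hs
      obtain ⟨q, hq, rfl⟩ := mem_image.1 hs
      obtain ⟨hq1, hq2⟩ := mem_filter.1 hq
      obtain ⟨a1, a2, a3, a4, a5, a6⟩ := hΦm q hq1
      obtain ⟨e1, e2, -⟩ := hN q hq1
      have k3 := hdet _ a3
      rw [← hq2, eq_div_iff (mul_ne_zero a4 a5), e1, e2]
      linear_combination (-(q.1.1 0 0 ^ 2 * (TOR_m g q.2.1).1 0 0 * (TOR_m g q.2.1).1 0 1)) * k3
    omega
  have hmain := card_le_mul_card_image_of_maps_to hmap 8 hfib
  rw [card_product, card_product] at hmain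
  calc D.card ^ 2 * (D.card - 4) ≤ D.card ^ 2 * D'.card := Nat.mul_le_mul_left _ hcard
    _ = D.card * (D'.card * D.card) := by ring
    _ ≤ _ := hmain

end TOR

end Pool.Agent.Helper42.XP
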