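import Pool.Agent.Helper81.XP.StA

set_option autoImplicit false

namespace Pool.Agent.Helper42.XP

open Finset Pool.Agent.Helper81.XP

theorem WLK_rev {α : Type} {n : ℕ} (F : Fin n → α) :
    List.ofFn (fun i => F i.rev) = (List.ofFn F).reverse := by
  apply List.ext_getElem
  · simp
  · intro i h1 h2
    simp only [List.getElem_ofFn, List.getElem_reverse, List.length_ofFn]
    congr 1
    ext
    simp only [Fin.val_rev]
    omega

/-- the involution of the letters -/
def WLK_s : Fin 5 → Fin 5 := ![0, 2, 1, 4, 3]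

theorem WLK_ss : ∀ c, WLK_s (WLK_s c) = c := by decide

theorem WLK_lt {Γ : Type} [Group Γ] (a b : Γ) : ∀ c, lt a b (WLK_s c) = (lt a b c)⁻¹ := by
  intro c
  fin_cases c <;> simp [lt, WLK_s]

/-- reversal of words -/
def WLK_E (n : ℕ) : (Fin n → Fin 5) ≃ (Fin n → Fin 5) where
  toFun w i := WLK_s (w i.rev)
  invFun w i := WLK_s (w i.rev)
  left_inv w := by funext i; simp [WLK_ss]
  right_inv w := by funext i; simp [WLK_ss]

theorem WLK_wdE {Γ : Type} [Group Γ] (a b : Γ) {n : ℕ} (w : Fin n → Fin 5) :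
    wd a b (WLK_E n w) = (wd a b w)⁻¹ := by
  unfold wd
  rw [List.prod_inv_reverse]
  have h1 : (fun i => lt a b ((WLK_E n w) i)) = fun i => (fun j => (lt a b (w j))⁻¹) i.rev := by
    funext i
    exact WLK_lt a b _
  rw [h1, WLK_rev (fun j => (lt a b (w j))⁻¹), List.map_ofFn]
  rfl

theorem WLK_app {Γ : Type} [Group Γ] (a b : Γ) {m n : ℕ} (u : Fin m → Fin 5) (v : Fin n → Fin 5) :
    wd a b (Fin.append u v) = wd a b u * wd a b v := by
  unfold wd
  have h1 : (fun i => lt a b (Fin.append u v i))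
      = Fin.append (fun i => lt a b (u i)) (fun i => lt a b (v i)) := by
    funext i
    refine Fin.addCases (fun j => ?_) (fun j => ?_) i
    · simp
    · simp
  rw [h1, List.ofFn_fin_append, List.prod_append]

open Classical in
theorem WLK_mu {G : Type} [Group G] (a b : G) (n : ℕ) (x : G) :
    mu a b n x = (∑ w : Fin n → Fin 5, if wd a b w = x then (1 : ℝ) else 0) / 5 ^ n := by
  unfold mu
  rw [Finset.sum_boole]

theorem WLK_nonneg {G : Type} [Group G] (a b : G) (n : ℕ) (x : G) : 0 ≤ mu a b n x := by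
  unfold mu
  positivity

theorem WLK_sum {G : Type} [Group G] [Fintype G] (a b : G) (n : ℕ) : ∑ x, mu a b n x = 1 := by
  classical
  simp_rw [WLK_mu]
  rw [← Finset.sum_div, Finset.sum_comm]
  simp

theorem WLK_symm {G : Type} [Group G] (a b : G) (n : ℕ) (x : G) : mu a b n x⁻¹ = mu a b n x := by
  classical
  rw [WLK_mu, WLK_mu]
  congr 1
  refine Fintype.sum_equiv (WLK_E n) _ _ fun w => ?_
  rw [WLK_wdE]
  by_cases h : wd a b w = x⁻¹
  · rw [if_pos h, if_pos (by rw [h, inv_inv])]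
  · rw [if_neg h, if_neg]
    intro h1
    exact h (by rw [← h1, inv_inv])

theorem WLK_conv {G : Type} [Group G] [Fintype G] (a b : G) (m n : ℕ) :
    mu a b (m + n) = cv (mu a b m) (mu a b n) := by
  classical
  funext x
  unfold cv
  simp_rw [WLK_mu]
  have h1 : (∑ w : Fin (m + n) → Fin 5, if wd a b w = x then (1 : ℝ) else 0)
      = ∑ u : Fin m → Fin 5, ∑ v : Fin n → Fin 5, if wd a b u * wd a b v = x then (1 : ℝ) else 0 := by
    rw [← Fintype.sum_prod_type' (fun (u : Fin m → Fin 5) (v : Fin n → Fin 5) =>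
      if wd a b u * wd a b v = x then (1 : ℝ) else 0)]
    refine (Fintype.sum_equiv (Fin.appendEquiv (α := Fin 5) m n)
      (fun q => if wd a b q.1 * wd a b q.2 = x then (1 : ℝ) else 0)
      (fun w => if wd a b w = x then (1 : ℝ) else 0) fun q => ?_).symm
    show _ = if wd a b (Fin.append q.1 q.2) = x then (1 : ℝ) else 0
    rw [WLK_app]
  rw [h1]
  have h2 : ∀ y : G, (∑ w : Fin m → Fin 5, if wd a b w = y then (1 : ℝ) else 0) / 5 ^ m *
      ((∑ w : Fin n → Fin 5, if wd a b w = y⁻¹ * x then (1 : ℝ) else 0) / 5 ^ n)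
      = (∑ u : Fin m → Fin 5, ∑ v : Fin n → Fin 5, (if wd a b u = y then (1 : ℝ) else 0) *
        (if wd a b v = y⁻¹ * x then (1 : ℝ) else 0)) / 5 ^ (m + n) := by
    intro y
    rw [← Finset.sum_mul_sum, pow_add]
    field_simp
  simp_rw [h2]
  rw [← Finset.sum_div]
  refine congrArg (fun t : ℝ => t / 5 ^ (m + n)) ?_
  symm
  rw [Finset.sum_comm]
  refine Finset.sum_congr rfl fun u _ => ?_
  rw [Finset.sum_comm]
  refine Finset.sum_congr rfl fun v _ => ?_
  rw [Finset.sum_eq_single (wd a b u)]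
  · rw [if_pos rfl, one_mul]
    by_cases h : wd a b u * wd a b v = x
    · rw [if_pos h, if_pos (by rw [← h]; group)]
    · rw [if_neg h, if_neg]
      intro h3
      exact h (by rw [h3]; group)
  · intro y _ hy
    rw [if_neg (Ne.symm hy), zero_mul]
  · intro h; exact absurd (mem_univ _) h

theorem WLK_cm {G : Type} [Group G] [Fintype G] (ν ρ : G → ℝ) (H : Subgroup G) (g : G) :
    cm (cv ν ρ) g H = ∑ y, ν y * cm ρ (y⁻¹ * g) H := by
  classical
  unfold cm cv
  have h1 : ∀ x, (if g⁻¹ * x ∈ H then ∑ y, ν y * ρ (y⁻¹ * x) else 0)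
      = ∑ y, ν y * (if g⁻¹ * x ∈ H then ρ (y⁻¹ * x) else 0) := by
    intro x
    split_ifs
    · rfl
    · simp
  simp_rw [h1]
  rw [Finset.sum_comm]
  refine Finset.sum_congr rfl fun y _ => ?_
  rw [← Finset.mul_sum]
  congr 1
  refine Fintype.sum_equiv (Equiv.mulLeft y⁻¹) _ _ fun x => ?_
  have : (y⁻¹ * g)⁻¹ * (Equiv.mulLeft y⁻¹ x) = g⁻¹ * x := by
    simp only [Equiv.coe_mulLeft]; group
  rw [this]
  rfl

theorem WLK_cm_nonneg {G : Type} [Group G] [Fintype G] (ρ : G → ℝ) (h : ∀ x, 0 ≤ ρ x)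
    (H : Subgroup G) (g : G) : 0 ≤ cm ρ g H := by
  classical
  unfold cm
  refine Finset.sum_nonneg fun x _ => ?_
  split_ifs
  · exact h x
  · exact le_rfl

theorem st_WLK : ST_WLK := by
  intro G _ _ a b m n
  have hsym := fun x => WLK_symm (G := G) a b n x
  refine ⟨⟨WLK_nonneg a b n, WLK_sum a b n, hsym⟩, WLK_conv a b m n, ?_, ?_, ?_⟩
  · intro H g
    classical
    rw [WLK_conv, WLK_cm]
    set ν := mu a b n with hν
    have hν0 : ∀ x, 0 ≤ ν x := WLK_nonneg a b n
    have h1 : cm ν g H = ∑ y, (if (g⁻¹ * y⁻¹) ∈ H then ν y else 0) := by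
      unfold cm
      refine Fintype.sum_equiv (Equiv.inv G) _ _ fun x => ?_
      simp only [Equiv.inv_apply, inv_inv]
      rw [hsym]
    have h2 : cm ν g H ^ 2 = ∑ y, (if (g⁻¹ * y⁻¹) ∈ H then ν y else 0) * cm ν g H := by
      rw [← Finset.sum_mul, ← h1, sq]
    rw [h2]
    refine Finset.sum_le_sum fun y _ => ?_
    by_cases h : (g⁻¹ * y⁻¹) ∈ H
    · rw [if_pos h]
      refine mul_le_mul_of_nonneg_left ?_ (hν0 y)
      unfold cm
      refine Finset.sum_le_sum fun z _ => ?_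
      by_cases h3 : g⁻¹ * z ∈ H
      · rw [if_pos h3, if_pos]
        have h4 : (y⁻¹ * 1)⁻¹ * z = (g⁻¹ * y⁻¹)⁻¹ * (g⁻¹ * z) := by group
        rw [h4]
        exact H.mul_mem (H.inv_mem h) h3
      · rw [if_neg h3]
        split_ifs
        · exact hν0 z
        · exact le_rfl
    · rw [if_neg h, zero_mul]
      exact mul_nonneg (hν0 y) (WLK_cm_nonneg ν hν0 H _)
  · intro H δ hδ g
    rw [WLK_conv, WLK_cm]
    calc ∑ y, mu a b m y * cm (mu a b n) (y⁻¹ * g) H ≤ ∑ y, mu a b m y * δ :=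
          Finset.sum_le_sum fun y _ => mul_le_mul_of_nonneg_left (hδ _) (WLK_nonneg a b m y)
      _ = δ := by rw [← Finset.sum_mul, WLK_sum, one_mul]
  · intro x
    rw [WLK_conv]
    unfold cv
    set ν := mu a b n with hν
    have h1 : ∑ y, ν y * ν (y⁻¹ * 1) = ∑ y, ν y ^ 2 := by
      refine Finset.sum_congr rfl fun y _ => ?_
      rw [mul_one, hsym, sq]
    have h2 : ∑ y, ν (y⁻¹ * x) ^ 2 = ∑ y, ν y ^ 2 := by
      refine Fintype.sum_equiv ((Equiv.inv G).trans (Equiv.mulRight x)) _ _ fun y => ?_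
      rfl
    rw [h1]
    have h3 : ∑ y, ν y * ν (y⁻¹ * x) ≤ ∑ y, (1 / 2 * ν y ^ 2 + 1 / 2 * ν (y⁻¹ * x) ^ 2) :=
      Finset.sum_le_sum fun y _ => by nlinarith [sq_nonneg (ν y - ν (y⁻¹ * x))]
    refine h3.trans ?_
    rw [Finset.sum_add_distrib, ← Finset.mul_sum, ← Finset.mul_sum, h2]
    linarith

end Pool.Agent.Helper42.XP
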