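import Pool.Agent.Helper81.XP.StA

set_option autoImplicit false

namespace Pool.Agent.Helper42.XP

open Finset Pool.Agent.Helper81.XP

theorem YNG_jensen {G : Type} [Fintype G] (ν F : G → ℝ) (h0 : ∀ x, 0 ≤ ν x) (h1 : ∑ x, ν x = 1) :
    (∑ y, ν y * F y) ^ 2 ≤ ∑ y, ν y * F y ^ 2 := by
  obtain ⟨m, hm⟩ : ∃ m, m = ∑ y, ν y * F y := ⟨_, rfl⟩
  rw [← hm]
  have h2 : 0 ≤ ∑ y, ν y * (F y - m) ^ 2 :=
    Finset.sum_nonneg fun y _ => mul_nonneg (h0 y) (sq_nonneg _)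
  have h3 : ∑ y, ν y * (F y - m) ^ 2 = ∑ y, ν y * F y ^ 2 - 2 * m * m + m ^ 2 * 1 := by
    have h4 : 2 * m * m = ∑ y, 2 * m * (ν y * F y) := by
      rw [← Finset.mul_sum, ← hm]
    rw [h4, ← h1, Finset.mul_sum, ← Finset.sum_sub_distrib, ← Finset.sum_add_distrib]
    refine Finset.sum_congr rfl fun y _ => ?_
    ring
  rw [h3] at h2
  nlinarith

theorem YNG_main {G : Type} [Group G] [Fintype G] (ν : G → ℝ) (F : G → G → ℝ) (f : G → ℝ)
    (h0 : ∀ x, 0 ≤ ν x) (h1 : ∑ x, ν x = 1) (hF : ∀ y, ∑ x, F y x ^ 2 = N2 f) :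
    ∑ x, (∑ y, ν y * F y x) ^ 2 ≤ N2 f := by
  calc ∑ x, (∑ y, ν y * F y x) ^ 2 ≤ ∑ x, ∑ y, ν y * F y x ^ 2 :=
        Finset.sum_le_sum fun x _ => YNG_jensen ν (fun y => F y x) h0 h1
    _ = ∑ y, ν y * N2 f := by
        rw [Finset.sum_comm]
        refine Finset.sum_congr rfl fun y _ => ?_
        rw [← Finset.mul_sum, hF]
    _ = N2 f := by rw [← Finset.sum_mul, h1, one_mul]

theorem st_YNG : ST_YNG := by
  intro G _ _ ν f h0 h1
  constructor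
  · refine YNG_main ν (fun y x => f (y⁻¹ * x)) f h0 h1 fun y => ?_
    exact Fintype.sum_equiv (Equiv.mulLeft y⁻¹) _ _ fun x => rfl
  · have h2 : ∀ x, cv f ν x = ∑ z, ν z * f (x * z⁻¹) := by
      intro x
      unfold cv
      refine Fintype.sum_equiv ((Equiv.inv G).trans (Equiv.mulRight x)) _ _ fun y => ?_
      simp [mul_comm]
    unfold N2
    simp_rw [h2]
    refine YNG_main ν (fun y x => f (x * y⁻¹)) f h0 h1 fun y => ?_
    exact Fintype.sum_equiv (Equiv.mulRight y⁻¹) _ _ fun x => rfl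

end Pool.Agent.Helper42.XP
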